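import Pool.Agent.H27.L1.H34.GA.Defs

/-!
Row MMS of the board zn (statement: `Pool.Agent.H34.ZN.T_MMS`): the Mellin transform of a bounded weight
function on vertical strips.
-/

set_option autoImplicit false

namespace Pool.Agent.H68.ZN

open MeasureTheory Pool.Agent.H27.L1.H34.GM Pool.Agent.H27.L1.H34.GA

theorem pf_MMS : ∀ (m : ℕ) (r0 M σ1 : ℝ), 1 ≤ m → 1 ≤ r0 → 1 ≤ σ1 → ∃ C : ℝ, 0 < C ∧
  ∀ ψ : ℝ → ℂ, ContinuousOn ψ (Set.Ioi 0) →
  (∀ r : ℝ, 0 < r → ψ r ≠ 0 → r0⁻¹ ≤ r ∧ r ≤ r0) → (∀ r : ℝ, 0 < r → ‖ψ r‖ ≤ M) →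
  ∀ s : ℂ, 1 / 2 ≤ s.re → s.re ≤ σ1 → ‖MelA m ψ s‖ ≤ C := by
  intro m r0 M σ1 hm hr0 hσ1
  have hm0 : (1 : ℝ) ≤ m := by exact_mod_cast hm
  have hr00 : 0 < r0 := by linarith
  have hE : 0 ≤ |M| * r0 ^ ((m : ℝ) * (σ1 + ((m : ℝ) - 1) / 2) + 1) * r0 := by positivity
  refine ⟨|M| * r0 ^ ((m : ℝ) * (σ1 + ((m : ℝ) - 1) / 2) + 1) * r0 + 1, by linarith, ?_⟩
  intro ψ _ hsupp hM s hs1 hs2
  unfold MelA
  have hsub : Set.Icc r0⁻¹ r0 ⊆ Set.Ioi (0 : ℝ) := fun r hr => lt_of_lt_of_le (by positivity) hr.1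
  rw [setIntegral_eq_of_subset_of_forall_sdiff_eq_zero measurableSet_Ioi hsub (by
    intro r hr
    have h1 : ψ r = 0 := by
      by_contra hne
      exact hr.2 (hsupp r hr.1 hne)
    rw [h1, zero_mul])]
  have hb : ∀ r ∈ Set.Icc r0⁻¹ r0, ‖ψ r * ((r : ℝ) : ℂ) ^
      (-((m : ℂ) * (s + ((m : ℂ) - 1) / 2)) - 1)‖ ≤
      |M| * r0 ^ ((m : ℝ) * (σ1 + ((m : ℝ) - 1) / 2) + 1) := by
    intro r hr
    have hr' : 0 < r := hsub hr
    rw [norm_mul, Complex.norm_cpow_eq_rpow_re_of_pos hr']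
    refine mul_le_mul ((hM r hr').trans (le_abs_self M)) ?_ (by positivity) (abs_nonneg M)
    have hre : (-((m : ℂ) * (s + ((m : ℂ) - 1) / 2)) - 1).re =
        -((m : ℝ) * (s.re + ((m : ℝ) - 1) / 2) + 1) := by
      have e : (-((m : ℂ) * (s + ((m : ℂ) - 1) / 2)) - 1) =
          -((((m : ℝ) : ℂ)) * (s + ((((m : ℝ) - 1) / 2 : ℝ) : ℂ))) - 1 := by
        push_cast
        ring
      rw [e, Complex.sub_re, Complex.neg_re, Complex.re_ofReal_mul, Complex.add_re,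
        Complex.ofReal_re, Complex.one_re]
      ring
    rw [hre]
    set x : ℝ := (m : ℝ) * (s.re + ((m : ℝ) - 1) / 2) + 1 with hx
    have hx0 : 0 ≤ x := by
      rw [hx]
      have : 0 ≤ s.re + ((m : ℝ) - 1) / 2 := by linarith
      positivity
    have hx1 : x ≤ (m : ℝ) * (σ1 + ((m : ℝ) - 1) / 2) + 1 := by
      rw [hx]
      have : (m : ℝ) * (s.re + ((m : ℝ) - 1) / 2) ≤ (m : ℝ) * (σ1 + ((m : ℝ) - 1) / 2) :=
        mul_le_mul_of_nonneg_left (by linarith) (by linarith)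
      linarith
    calc r ^ (-x) = (r⁻¹) ^ x := by rw [Real.rpow_neg hr'.le, Real.inv_rpow hr'.le]
      _ ≤ r0 ^ x := by
        refine Real.rpow_le_rpow (by positivity) ?_ hx0
        rw [inv_le_comm₀ hr' hr00]
        exact hr.1
      _ ≤ _ := Real.rpow_le_rpow_of_exponent_le hr0 hx1
  refine (norm_setIntegral_le_of_norm_le_const (by
    rw [Real.volume_Icc]
    exact ENNReal.ofReal_lt_top) hb).trans ?_
  have hv : volume.real (Set.Icc r0⁻¹ r0) ≤ r0 := by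
    rw [Real.volume_real_Icc]
    have : 0 ≤ r0⁻¹ := by positivity
    exact max_le (by linarith) hr00.le
  have := mul_le_mul_of_nonneg_left hv (show (0 : ℝ) ≤
    |M| * r0 ^ ((m : ℝ) * (σ1 + ((m : ℝ) - 1) / 2) + 1) by positivity)
  linarith

end Pool.Agent.H68.ZN
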